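import Pool.Agent.U398.MV.Stm4

set_option autoImplicit false

/-!
# Project MV4, package PTW: the pointwise comparison of the ordinates with the fluctuations
-/

namespace Pool.Agent.U123.MV4

open Pool.Agent.U398.MV Set

/-- the derivative of the smooth counting function -/
theorem hasDerivAt_Mf {u : ℝ} (hu : 0 < u) :
    HasDerivAt Mf (1 / (2 * Real.pi) * Real.log (u / (2 * Real.pi))) u := by
  have hpi : (0 : ℝ) < 2 * Real.pi := by positivity
  have h1 : HasDerivAt (fun t : ℝ => t / (2 * Real.pi)) (1 / (2 * Real.pi)) u :=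
    (hasDerivAt_id u).div_const _
  have h2 : HasDerivAt (fun t : ℝ => Real.log (t / (2 * Real.pi)))
      ((1 / (2 * Real.pi)) / (u / (2 * Real.pi))) u := h1.log (by positivity)
  have h3 := (h1.mul h2).sub h1
  have e : 1 / (2 * Real.pi) * Real.log (u / (2 * Real.pi)) +
      u / (2 * Real.pi) * ((1 / (2 * Real.pi)) / (u / (2 * Real.pi))) - 1 / (2 * Real.pi) =
      1 / (2 * Real.pi) * Real.log (u / (2 * Real.pi)) := by
    field_simp
    ring
  rw [← e]
  exact h3

theorem Mf_diff {T t y : ℝ} (hT : 0 < T) (ht : T / 2 ≤ t) (hy : 0 ≤ y) (hty : t + y ≤ 4 * T) :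
    |Mf (t + y) - Mf t - y * Real.log T / (2 * Real.pi)| ≤ y := by
  have hpi3 : (3 : ℝ) < Real.pi := Real.pi_gt_three
  have hpi : (0 : ℝ) < 2 * Real.pi := by positivity
  have hder : ∀ u ∈ Icc (T / 2) (4 * T),
      HasDerivWithinAt (fun u => Mf u - u * (Real.log T / (2 * Real.pi)))
        (1 / (2 * Real.pi) * Real.log (u / (2 * Real.pi)) - 1 * (Real.log T / (2 * Real.pi)))
        (Icc (T / 2) (4 * T)) u := by
    intro u hu
    have hu0 : 0 < u := by linarith [hu.1]
    exact ((hasDerivAt_Mf hu0).sub ((hasDerivAt_id u).mul_const _)).hasDerivWithinAt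
  have hbd : ∀ u ∈ Icc (T / 2) (4 * T),
      ‖1 / (2 * Real.pi) * Real.log (u / (2 * Real.pi)) - 1 * (Real.log T / (2 * Real.pi))‖ ≤ 1 := by
    intro u hu
    have hu0 : 0 < u := by linarith [hu.1]
    have h1 : Real.log (u / (2 * Real.pi)) ≤ Real.log T := by
      apply Real.log_le_log (by positivity)
      rw [div_le_iff₀ hpi]
      nlinarith [hu.2]
    have h2 : Real.log T - 2 * Real.pi ≤ Real.log (u / (2 * Real.pi)) := by
      rw [Real.le_log_iff_exp_le (by positivity), Real.exp_sub, Real.exp_log hT]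
      have h3 : 1 + 2 * Real.pi + (2 * Real.pi) ^ 2 / 2 ≤ Real.exp (2 * Real.pi) :=
        Real.quadratic_le_exp_of_nonneg hpi.le
      have h4 : 4 * Real.pi ≤ Real.exp (2 * Real.pi) := by nlinarith
      rw [div_le_div_iff₀ (Real.exp_pos _) hpi]
      have h5 : T * (2 * Real.pi) ≤ (T / 2) * Real.exp (2 * Real.pi) := by nlinarith
      exact h5.trans (mul_le_mul_of_nonneg_right hu.1 (Real.exp_pos _).le)
    rw [Real.norm_eq_abs, one_mul, one_div, inv_mul_eq_div, ← sub_div, abs_div, abs_of_pos hpi,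
      div_le_one hpi, abs_le]
    constructor <;> linarith
  have h := (convex_Icc (T / 2) (4 * T)).norm_image_sub_le_of_norm_hasDerivWithin_le hder hbd
    (x := t) (y := t + y) ⟨ht, by linarith⟩ ⟨by linarith, hty⟩
  rw [Real.norm_eq_abs, Real.norm_eq_abs, one_mul] at h
  have e1 : t + y - t = y := by ring
  rw [e1, abs_of_nonneg hy] at h
  have e2 : Mf (t + y) - (t + y) * (Real.log T / (2 * Real.pi)) -
      (Mf t - t * (Real.log T / (2 * Real.pi))) =
      Mf (t + y) - Mf t - y * Real.log T / (2 * Real.pi) := by ring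
  rwa [e2] at h

theorem t_PTW : S_PTW := by
  intro A C1 hA hC1
  have hpi3 : (3 : ℝ) < Real.pi := Real.pi_gt_three
  have hpi : (0 : ℝ) < 2 * Real.pi := by positivity
  obtain ⟨H, hH⟩ : ∃ H : ℝ, H = 2 + 2 * Real.pi * (A + 4 * C1) := ⟨_, rfl⟩
  have hH0 : 30 ≤ H := by rw [hH]; nlinarith
  refine ⟨2 * H + 6, Real.exp (2 * Real.pi * (H + 1)), by linarith, ?_, ?_⟩
  · have := Real.add_one_le_exp (2 * Real.pi * (H + 1))
    nlinarith
  intro N g hN T hT a n ha hn t ht1 ht2
  have hT1 : 6 * (H + 1) ≤ T := by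
    have := Real.add_one_le_exp (2 * Real.pi * (H + 1))
    nlinarith
  have hT0 : 0 < T := by linarith
  have hL1 : 2 * Real.pi * (H + 1) ≤ Real.log T := by
    rw [Real.le_log_iff_exp_le hT0]
    exact hT
  obtain ⟨L, hLdef⟩ : ∃ L : ℝ, L = Real.log T := ⟨_, rfl⟩
  rw [← hLdef] at ht1 ha hL1 ⊢
  have hL0 : 0 < L := by nlinarith
  obtain ⟨w, hw⟩ : ∃ w : ℝ, w = 2 * Real.pi / L := ⟨_, rfl⟩
  have hw0 : 0 < w := by rw [hw]; positivity
  have hw1 : w ≤ 1 := by
    rw [hw, div_le_one hL0]
    nlinarith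
  have hwL : w * L = 2 * Real.pi := by rw [hw]; field_simp
  rw [← hw] at ht1 ⊢
  rw [Finset.mem_Ioc] at hn
  have hn1 : 1 ≤ n := by omega
  -- the position of `g n`
  have hgn1 : T < g n := by
    by_contra hcon
    have := (hN.gc n hn1 T).1 (not_lt.1 hcon)
    omega
  have hgn2 : g n ≤ 2 * T := (hN.gc n hn1 (2 * T)).2 hn.2
  have htT : T / 2 ≤ t := by linarith
  have ht10 : 10 ≤ t := by linarith
  have ht2T : t < 2 * T := by linarith
  -- `N t < n ≤ N (t + w)`
  have hNt : N t + 1 ≤ n := by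
    by_contra hcon
    have h1 : n ≤ N t := by omega
    have h2 := (hN.gc n hn1 t).2 h1
    linarith
  have hNw : n ≤ N (t + w) := (hN.gc n hn1 (t + w)).1 (by linarith)
  -- the smooth part
  have hM : ∀ y : ℝ, 0 ≤ y → y ≤ H + 1 → |Mf (t + y) - Mf t - y * L / (2 * Real.pi)| ≤ y := by
    intro y hy1 hy2
    rw [hLdef]
    exact Mf_diff hT0 htT hy1 (by linarith)
  -- enough points up to `t + H`
  have hlog : ∀ y : ℝ, 0 ≤ y → y ≤ H + 1 → |sg N (t + y)| ≤ C1 * (2 * L) := by
    intro y hy1 hy2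
    have h1 := hN.rvm (t + y) (by linarith)
    have h2 : Real.log (t + y) ≤ 2 * L := by
      have h3 : Real.log (t + y) ≤ Real.log (T * T) := by
        apply Real.log_le_log (by linarith)
        nlinarith
      rw [Real.log_mul hT0.ne' hT0.ne', ← hLdef] at h3
      linarith
    exact h1.trans (mul_le_mul_of_nonneg_left h2 (by linarith))
  have hNH : n + a ≤ N (t + H) := by
    have h1 := hM H (by linarith) (by linarith)
    have h2 := hM w hw0.le (by linarith)
    have h3 := hlog H (by linarith) (by linarith)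
    have h4 := hlog w hw0.le (by linarith)
    rw [hwL, div_self hpi.ne'] at h2
    rw [abs_le] at h1 h2 h3 h4
    have e1 : (N (t + H) : ℝ) = Mf (t + H) + sg N (t + H) := by unfold sg; ring
    have e2 : (N (t + w) : ℝ) = Mf (t + w) + sg N (t + w) := by unfold sg; ring
    have e3 : H * L / (2 * Real.pi) = L / Real.pi + (A + 4 * C1) * L := by
      rw [hH]
      field_simp
    have h5 : 2 * (H + 1) ≤ L / Real.pi := by
      rw [le_div_iff₀ (by positivity)]
      nlinarith
    have h6 : (N (t + w) : ℝ) + a ≤ N (t + H) := by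
      rw [e1, e2]
      rw [e3] at h1
      nlinarith
    have h7 : N (t + w) + a ≤ N (t + H) := by exact_mod_cast h6
    omega
  have hna : 1 ≤ n + a := by omega
  have hga1 : g (n + a) ≤ t + H := (hN.gc (n + a) hna (t + H)).2 hNH
  have hga2 : t < g (n + a) := by
    by_contra hcon
    have h1 := (hN.gc (n + a) hna t).1 (not_lt.1 hcon)
    omega
  -- the index
  obtain ⟨i, hi1, hi2⟩ : ∃ i : ℕ, t + w * i < g (n + a) ∧ g (n + a) ≤ t + w * (i + 1) := by
    have hx : 0 < (g (n + a) - t) / w := by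
      apply div_pos _ hw0
      linarith
    have h1 : 1 ≤ ⌈(g (n + a) - t) / w⌉₊ := Nat.one_le_iff_ne_zero.2 (Nat.ceil_pos.2 hx).ne'
    refine ⟨⌈(g (n + a) - t) / w⌉₊ - 1, ?_, ?_⟩
    · have h2 : ((⌈(g (n + a) - t) / w⌉₊ - 1 : ℕ) : ℝ) < (g (n + a) - t) / w := by
        apply Nat.lt_ceil.1
        omega
      rw [lt_div_iff₀ hw0] at h2
      linarith
    · have h2 : (g (n + a) - t) / w ≤ ((⌈(g (n + a) - t) / w⌉₊ - 1 : ℕ) : ℝ) + 1 := by
        rw [Nat.cast_sub h1, Nat.cast_one, sub_add_cancel]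
        exact Nat.le_ceil _
      rw [div_le_iff₀ hw0] at h2
      linarith
  have hiH : w * i ≤ H := by linarith
  have hi0 : (0 : ℝ) ≤ i := Nat.cast_nonneg i
  have hNi : N (t + w * i) + 1 ≤ n + a := by
    by_contra hcon
    have h1 : n + a ≤ N (t + w * i) := by omega
    have h2 := (hN.gc (n + a) hna _).2 h1
    linarith
  have hNi2 : n + a ≤ N (t + w * (i + 1)) := (hN.gc (n + a) hna _).1 hi2
  have hwi : ∀ x : ℝ, w * x * L / (2 * Real.pi) = x := by
    intro x
    rw [mul_assoc, mul_comm x L, ← mul_assoc, hwL]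
    field_simp
  -- the three comparisons of the smooth part
  have k1 := hM (w * i) (by positivity) (by linarith)
  have k2 := hM (w * (i + 1)) (by positivity) (by
    have e : w * ((i : ℝ) + 1) = w * i + w := by ring
    rw [e]
    linarith)
  rw [hwi, abs_le] at k1 k2
  have k3 := hM (g (n + a) - t) (by linarith) (by linarith)
  have k4 := hM (g n - t) (by linarith) (by linarith)
  rw [add_sub_cancel] at k3 k4
  rw [abs_le] at k3 k4
  have k5 : (i : ℝ) ≤ (g (n + a) - t) * L / (2 * Real.pi) := by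
    rw [le_div_iff₀ hpi, ← hwL]
    calc (i : ℝ) * (w * L) = (w * i) * L := by ring
      _ ≤ _ := mul_le_mul_of_nonneg_right (by linarith) hL0.le
  have k6 : (g (n + a) - t) * L / (2 * Real.pi) ≤ i + 1 := by
    rw [div_le_iff₀ hpi, ← hwL]
    calc (g (n + a) - t) * L ≤ (w * (i + 1)) * L :=
          mul_le_mul_of_nonneg_right (by linarith) hL0.le
      _ = _ := by ring
  have k7 : 0 ≤ (g n - t) * L / (2 * Real.pi) := by
    apply div_nonneg _ hpi.le
    exact mul_nonneg (by linarith) hL0.le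
  have k8 : (g n - t) * L / (2 * Real.pi) ≤ 1 := by
    rw [div_le_one hpi, ← hwL]
    exact mul_le_mul_of_nonneg_right (by linarith) hL0.le
  -- casts
  have c1 : (N t : ℝ) + 1 ≤ n := by exact_mod_cast hNt
  have c2 : (n : ℝ) ≤ N (t + w) := by exact_mod_cast hNw
  have c3 : (N (t + w * i) : ℝ) + 1 ≤ n + a := by exact_mod_cast hNi
  have c4 : (n : ℝ) + a ≤ N (t + w * (i + 1)) := by exact_mod_cast hNi2
  have s1 : (N (t + w * i) : ℝ) = Mf (t + w * i) + sg N (t + w * i) := by unfold sg; ring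
  have s2 : (N (t + w * (i + 1)) : ℝ) = Mf (t + w * (i + 1)) + sg N (t + w * (i + 1)) := by
    unfold sg; ring
  have s3 : (N t : ℝ) = Mf t + sg N t := by unfold sg; ring
  have E0 : ∀ x : ℝ, 2 * Real.pi * x / L = w * x := by
    intro x
    rw [hw]
    ring
  refine ⟨i, ?_, ?_, ?_⟩
  · -- the size of `i`
    have h1 : (i : ℝ) ≤ H * L / (2 * Real.pi) := by
      rw [le_div_iff₀ hpi, ← hwL]
      calc (i : ℝ) * (w * L) = (w * i) * L := by ring
        _ ≤ _ := mul_le_mul_of_nonneg_right hiH hL0.le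
    refine h1.trans ?_
    rw [div_le_iff₀ hpi]
    have h2 : 0 ≤ (H + 6) * L := by positivity
    have h3 : (2 * H + 6) * L * 1 ≤ (2 * H + 6) * L * (2 * Real.pi) :=
      mul_le_mul_of_nonneg_left (by linarith) (by positivity)
    linarith
  · rw [E0, E0, E0]
    have hl := le_abs_self (sg N (t + w * i) - sg N (t + w * a))
    have hl2 := neg_abs_le (sg N (t + w * i) - sg N (t + w * a))
    have hl3 := le_abs_self (sg N (t + w * (i + 1)) - sg N (t + w * a))
    have hl4 := abs_nonneg (sg N (t + w * (i + 1)) - sg N (t + w * a))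
    have hl5 := abs_nonneg (sg N (t + w * i) - sg N (t + w * a))
    have hν : 1 ≤ (N (t + w) : ℝ) - N t := by linarith
    have hν2 : (2 * H + 5) * 1 ≤ (2 * H + 5) * ((N (t + w) : ℝ) - N t) :=
      mul_le_mul_of_nonneg_left hν (by linarith)
    unfold uf
    rw [abs_le]
    constructor
    · linarith [k1.1, k1.2, k2.1, k2.2, k3.1, k3.2, k4.1, k4.2]
    · linarith [k1.1, k1.2, k2.1, k2.2, k3.1, k3.2, k4.1, k4.2]
  · rw [E0, E0, E0]
    have hl := le_abs_self (sg N (t + w * i) - sg N (t + w * a))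
    have hl2 := neg_abs_le (sg N (t + w * i) - sg N (t + w * a))
    have hl3 := le_abs_self (sg N (t + w * (i + 1)) - sg N (t + w * a))
    have hl4 := abs_nonneg (sg N (t + w * (i + 1)) - sg N (t + w * a))
    have hl5 := abs_nonneg (sg N (t + w * i) - sg N (t + w * a))
    have hl6 := le_abs_self (sg N (t + w * a) - sg N t)
    have hl7 := neg_abs_le (sg N (t + w * a) - sg N t)
    have hl8 := abs_nonneg (sg N (t + w * a) - sg N t)
    have hν : 1 ≤ (N (t + w) : ℝ) - N t := by linarith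
    have hν2 : (2 * H + 5) * 1 ≤ (2 * H + 5) * ((N (t + w) : ℝ) - N t) :=
      mul_le_mul_of_nonneg_left hν (by linarith)
    have h1 : 0 ≤ (2 * H + 5) * |sg N (t + w * i) - sg N (t + w * a)| := by positivity
    have h2 : 0 ≤ (2 * H + 5) * |sg N (t + w * (i + 1)) - sg N (t + w * a)| := by positivity
    have h3 : 0 ≤ (2 * H + 5) * |sg N (t + w * a) - sg N t| := by positivity
    rw [abs_le]
    constructor
    · linarith [k1.1, k1.2, k2.1, k2.2]
    · linarith [k1.1, k1.2, k2.1, k2.2]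

end Pool.Agent.U123.MV4
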